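import Mathlib
import Pool.Graph.R_seed8.Helper677.Ham.Main

/-!
# Hamidoune's conjecture fails in every torsion-free group that receives a nontrivial homomorphism
from the Hantzsche–Wendt (Promislow) group
-/

set_option autoImplicit false
set_option linter.unusedSimpArgs false

open Pointwise

namespace Pool.Agent.Results.MP_587a88_co.EveryOvergroup

open Pool.Agent.Helper677.Ham
open Pool.Agent.Helper677.Ham.P

theorem cv_one (D : Finset (ℤ × ℤ)) : cv {1} D = D := by
  ext p
  rw [mem_cv]
  constructor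
  · rintro ⟨a, ha, d, hd, rfl⟩
    rw [Finset.mem_singleton] at ha
    subst ha
    rw [pl_one]
    exact hd
  · intro hp
    exact ⟨1, by simp, p, hp, pl_one p⟩

theorem rot_one : rot {1} = {1} := by
  unfold rot
  rw [Finset.image_singleton, map_one]

theorem card_S : rr * 137 ≤ S.card + 6212 := by
  have l0 : rr * (cv {1} D0).card ≤ (({1} : Finset P) * S0).card := by
    rw [S0_eq]; exact prism_lower Xs tab0 good0 rr rr_even _
  have l1 : rr * (cv (rot {1}) D1).card ≤ (({1} : Finset P) * S1).card := by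
    rw [card_mul_S1]; exact prism_lower Xs1 tab1 good1 rr rr_even _
  have l2 : rr * (cv (rot (rot {1})) D2).card ≤ (({1} : Finset P) * S2).card := by
    rw [card_mul_S2]; exact prism_lower Xs2 tab2 good2 rr rr_even _
  have i01 := inter01 {1}
  have i02 := inter02 {1}
  have i12 := inter12 {1}
  rw [rot_one, cv_one] at l1
  rw [rot_one, rot_one, cv_one] at l2
  rw [cv_one] at l0
  rw [rot_one, cv_one, cv_one] at i01
  rw [rot_one, rot_one, cv_one, cv_one] at i02
  rw [rot_one, rot_one, cv_one, cv_one] at i12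
  rw [card_D0] at l0 i01 i02
  rw [card_D1] at l1 i01 i12
  rw [card_D2] at l2 i02 i12
  have u1 := Finset.card_union_add_card_inter (({1} : Finset P) * S0) ((({1} : Finset P) * S1) ∪ (({1} : Finset P) * S2))
  have u2 := Finset.card_union_add_card_inter (({1} : Finset P) * S1) (({1} : Finset P) * S2)
  have u3 : ((({1} : Finset P) * S0) ∩ ((({1} : Finset P) * S1) ∪ (({1} : Finset P) * S2))).card ≤
      ((({1} : Finset P) * S0) ∩ (({1} : Finset P) * S1)).card + ((({1} : Finset P) * S0) ∩ (({1} : Finset P) * S2)).card := by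
    rw [Finset.inter_union_distrib_left]
    exact Finset.card_union_le _ _
  have h1 : (({1} : Finset P) * S).card = S.card := by
    rw [Finset.singleton_mul]; simp
  rw [← h1, mul_S]
  omega

/-- the set `S` in the group `G` -/
noncomputable def SG {G : Type*} [Group G] [DecidableEq G] (φ : P →* G) : Finset G := S.image φ

section
variable {G : Type*} [Group G] [DecidableEq G]

theorem image_card {φ : P →* G} (hφ : Function.Injective φ) (A : Finset P) :
    (A.image φ * SG φ).card = (A * S).card := by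
  unfold SG
  rw [← Finset.image_mul, Finset.card_image_of_injective _ hφ]

theorem smul_card (g : G) (A B : Finset G) : ((g • A) * B).card = (A * B).card := by
  rw [smul_mul_assoc, Finset.card_smul_finset]

theorem overgroup {φ : P →* G} (hφ : Function.Injective φ) (A : Finset G) (hA : A.card = 11) :
    (X * S).card ≤ (A * SG φ).card := by
  classical
  obtain ⟨a0, ha0⟩ : A.Nonempty := by rw [← Finset.card_pos]; omega
  by_cases h : ∀ a ∈ A, ∃ p : P, φ p = a0⁻¹ * a
  · -- `A` lies in one coset
    let A0 : Finset P := (a0⁻¹ • A).preimage φ hφ.injOn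
    have h1 : A0.image φ = a0⁻¹ • A := by
      ext g
      rw [Finset.mem_image]
      constructor
      · rintro ⟨p, hp, rfl⟩
        exact Finset.mem_preimage.mp hp
      · intro hg
        obtain ⟨a, ha, rfl⟩ := Finset.mem_smul_finset.mp hg
        obtain ⟨p, hp⟩ := h a ha
        exact ⟨p, Finset.mem_preimage.mpr (by rw [hp]; exact hg), hp⟩
    have h2 : A0.card = 11 := by
      rw [← Finset.card_image_of_injective A0 hφ, h1, Finset.card_smul_finset, hA]
    rw [← smul_card a0⁻¹ A, ← h1, image_card hφ]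
    exact main A0 h2
  · push Not at h
    obtain ⟨b, hb, hab⟩ := h
    have hd : Disjoint (a0 • SG φ) (b • SG φ) := by
      rw [Finset.disjoint_left]
      intro g h1 h2
      obtain ⟨s, hs, rfl⟩ := Finset.mem_smul_finset.mp h1
      obtain ⟨s', hs', h3⟩ := Finset.mem_smul_finset.mp h2
      unfold SG at hs hs'
      obtain ⟨p, _, rfl⟩ := Finset.mem_image.mp hs
      obtain ⟨q, _, rfl⟩ := Finset.mem_image.mp hs'
      apply hab (p * q⁻¹)
      rw [map_mul, map_inv]
      have h4 : b * φ q = a0 * φ p := h3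
      rw [eq_inv_mul_iff_mul_eq, ← mul_assoc, ← h4, mul_inv_cancel_right]
    have hsub : (a0 • SG φ) ∪ (b • SG φ) ⊆ A * SG φ := by
      intro g hg
      rcases Finset.mem_union.mp hg with h1 | h1
      · obtain ⟨s, hs, rfl⟩ := Finset.mem_smul_finset.mp h1
        exact Finset.mul_mem_mul ha0 hs
      · obtain ⟨s, hs, rfl⟩ := Finset.mem_smul_finset.mp h1
        exact Finset.mul_mem_mul hb hs
    have h1 := Finset.card_le_card hsub
    rw [Finset.card_union_of_disjoint hd, Finset.card_smul_finset, Finset.card_smul_finset] at h1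
    have h2 : (SG φ).card = S.card := Finset.card_image_of_injective _ hφ
    have h3 := upper
    have h4 := card_S
    rw [rr_eq] at h3 h4
    omega

end

section
variable {G : Type*} [Group G]

theorem sq_one (htf : ∀ g : G, g ≠ 1 → ¬ IsOfFinOrder g) (g : G) (n : ℕ) (hn : 0 < n)
    (h : g ^ n = 1) : g = 1 := by
  by_contra hg
  exact htf g hg (isOfFinOrder_iff_pow_eq_one.mpr ⟨n, hn, h⟩)

/-- the element `(2, 0, 0)` -/
def aa : P := mk 2 0 0 (by decide)

theorem ker_step (htf : ∀ g : G, g ≠ 1 → ¬ IsOfFinOrder g) (φ : P →* G) (t : P)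
    (e1 : t.c1 % 2 = 0) (e2 : t.c2 % 2 = 0) (e3 : t.c3 % 2 = 0) (h : φ t = 1) (h1 : t.c1 ≠ 0) :
    φ aa = 1 := by
  let u : P := mk 1 0 1 (by decide)
  have s1 : sg t.c1 = 1 := by simp [sg, e1]
  have s2 : sg t.c2 = 1 := by simp [sg, e2]
  have s3 : sg t.c3 = 1 := by simp [sg, e3]
  have g0 : sg 0 = 1 := by decide
  have g1 : sg 1 = -1 := by decide
  have hprod : t * (u * t * u⁻¹) = mk (2 * t.c1) 0 0 (by omega) := by
    apply P.ext <;> simp [u, sg_add, sg_neg, sg_sg_mul, s1, s2, s3, g0, g1] <;> ring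
  have hφ : φ (mk (2 * t.c1) 0 0 (by omega)) = 1 := by
    rw [← hprod]
    simp [h]
  obtain ⟨p1, p2, p3⟩ := pow_even aa (by decide) (by decide) (by decide) t.c1.natAbs
  refine sq_one htf _ t.c1.natAbs (by omega) ?_
  rw [← map_pow]
  have q1 : aa.c1 = 2 := rfl
  have q2 : aa.c2 = 0 := rfl
  have q3 : aa.c3 = 0 := rfl
  rw [q1] at p1
  rw [q2, mul_zero] at p2
  rw [q3, mul_zero] at p3
  rcases Int.natAbs_eq t.c1 with hn | hn
  · have : aa ^ t.c1.natAbs = mk (2 * t.c1) 0 0 (by omega) :=
      P.ext (by rw [p1, mk_c1]; omega) p2 p3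
    rw [this, hφ]
  · have : aa ^ t.c1.natAbs = (mk (2 * t.c1) 0 0 (by omega))⁻¹ := by
      refine P.ext ?_ ?_ ?_
      · rw [p1, inv_c1, mk_c1, mk_c2, g0]; omega
      · rw [p2, inv_c2, mk_c2]; simp
      · rw [p3, inv_c3, mk_c3]; simp
    rw [this, map_inv, hφ, inv_one]

theorem ker_plane (htf : ∀ g : G, g ≠ 1 → ¬ IsOfFinOrder g) (φ : P →* G) (h : φ aa = 1)
    (x y : ℤ) (hx : x % 2 = 0) (hy : y % 2 = 0) : φ (mk 0 x y (by omega)) = 1 := by
  have g1 : sg 1 = -1 := by decide
  have key : ∀ (c d : ℤ) (hc : c % 2 = 0) (hd : d % 2 = 1), φ (mk 1 c d (by omega)) = 1 := by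
    intro c d hc hd
    have s2 : sg c = 1 := by simp [sg, hc]
    have s3 : sg d = -1 := by unfold sg; rw [if_neg (by omega)]
    refine sq_one htf _ 2 (by norm_num) ?_
    rw [← map_pow, pow_two]
    have : (mk 1 c d (by omega) : P) * mk 1 c d (by omega) = aa := by
      apply P.ext <;> simp [aa, s2, s3, g1]
    rw [this, h]
  have k1 := key x (y + 1) hx (by omega)
  have k2 := key 0 1 (by norm_num) (by norm_num)
  have s1 : sg x = 1 := by simp [sg, hx]
  have s2 : sg (y + 1) = -1 := by unfold sg; rw [if_neg (by omega)]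
  have g0 : sg 0 = 1 := by decide
  have : (mk 0 x y (by omega) : P) = mk 1 x (y + 1) (by omega) * (mk 1 0 1 (by omega))⁻¹ := by
    apply P.ext <;> simp [s1, s2, g1, g0]
  rw [this, map_mul, map_inv, k1, k2]
  simp

/-- if `(2, 0, 0)` is in the kernel, the homomorphism is trivial -/
theorem trivial_of_aa (htf : ∀ g : G, g ≠ 1 → ¬ IsOfFinOrder g) (φ : P →* G) (h : φ aa = 1)
    (p : P) : φ p = 1 := by
  -- even elements
  have k1 := ker_plane htf φ h
  have h2 : (φ.comp tau.toMonoidHom) aa = 1 := by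
    have : tau aa = mk 0 0 2 (by decide) := rfl
    show φ (tau aa) = 1
    rw [this]
    exact k1 0 2 (by norm_num) (by norm_num)
  have k2 := ker_plane htf (φ.comp tau.toMonoidHom) h2
  have g0 : sg 0 = 1 := by decide
  have even : ∀ t : P, t.c1 % 2 = 0 → t.c2 % 2 = 0 → t.c3 % 2 = 0 → φ t = 1 := by
    intro t e1 e2 e3
    have a1 := k1 t.c2 t.c3 e2 e3
    have a2 : φ (tau (mk 0 t.c1 0 (by omega))) = 1 := k2 t.c1 0 e1 (by norm_num)
    have : t = tau (mk 0 t.c1 0 (by omega)) * mk 0 t.c2 t.c3 (by omega) := by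
      apply P.ext <;> simp [g0, sg, e1]
    rw [this, map_mul, a1, a2, mul_one]
  refine sq_one htf _ 2 (by norm_num) ?_
  rw [← map_pow, pow_two]
  have m1 := sg_mul_mod p.c2 p.c1
  have m2 := sg_mul_mod p.c3 p.c2
  have m3 := sg_mul_mod p.c1 p.c3
  exact even _ (by rw [mul_c1]; omega) (by rw [mul_c2]; omega) (by rw [mul_c3]; omega)

/-- a nontrivial homomorphism from `P` to a torsion-free group is injective -/
theorem injective_of_nontrivial (htf : ∀ g : G, g ≠ 1 → ¬ IsOfFinOrder g) (φ : P →* G)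
    (h : ∃ p, φ p ≠ 1) : Function.Injective φ := by
  rw [injective_iff_map_eq_one]
  intro p hp
  by_contra hne
  obtain ⟨q, hq⟩ := h
  have m1 := sg_mul_mod p.c2 p.c1
  have m2 := sg_mul_mod p.c3 p.c2
  have m3 := sg_mul_mod p.c1 p.c3
  have c1 : (p * p).c1 % 2 = 0 := by rw [mul_c1]; omega
  have c2 : (p * p).c2 % 2 = 0 := by rw [mul_c2]; omega
  have c3 : (p * p).c3 % 2 = 0 := by rw [mul_c3]; omega
  have hpp : φ (p * p) = 1 := by rw [map_mul, hp, mul_one]
  have hpp1 : p * p ≠ 1 := fun h1 => P.torsion_free p hne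
    (isOfFinOrder_iff_pow_eq_one.mpr ⟨2, by norm_num, by rw [pow_two, h1]⟩)
  by_cases z1 : (p * p).c1 = 0
  · by_cases z2 : (p * p).c2 = 0
    · have z3 : (p * p).c3 ≠ 0 := fun z3 => hpp1 (P.ext z1 z2 z3)
      -- rotate twice
      let ψ : P →* G := (φ.comp tau.symm.toMonoidHom).comp tau.symm.toMonoidHom
      have hψ : ψ (tau (tau (p * p))) = 1 := by
        show φ (tau.symm (tau.symm (tau (tau (p * p))))) = 1
        rw [MulEquiv.symm_apply_apply, MulEquiv.symm_apply_apply, hpp]
      have h1 := ker_step htf ψ (tau (tau (p * p))) c3 c1 c2 hψ z3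
      have h2 := trivial_of_aa htf ψ h1 (tau (tau q))
      apply hq
      have : φ (tau.symm (tau.symm (tau (tau q)))) = 1 := h2
      rwa [MulEquiv.symm_apply_apply, MulEquiv.symm_apply_apply] at this
    · let ψ : P →* G := φ.comp tau.symm.toMonoidHom
      have hψ : ψ (tau (p * p)) = 1 := by
        show φ (tau.symm (tau (p * p))) = 1
        rw [MulEquiv.symm_apply_apply, hpp]
      have h1 := ker_step htf ψ (tau (p * p)) c2 c3 c1 hψ z2
      have h2 := trivial_of_aa htf ψ h1 (tau q)
      apply hq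
      have : φ (tau.symm (tau q)) = 1 := h2
      rwa [MulEquiv.symm_apply_apply] at this
  · exact hq (trivial_of_aa htf φ (ker_step htf φ (p * p) c1 c2 c3 hpp z1) q)

end

/-- **Theorem.** Let `G` be a torsion-free group to which the Hantzsche–Wendt group `P` has a
nontrivial homomorphism `φ`.  Then `φ` is injective and Hamidoune's conjecture fails in `G` for
`k = 11`: there is a finite set `S` containing `1` such that for every set `A` of `11` elements some
finite set `X` with at least `11` elements has `|XS| - |X| < |AS| - |A|`; the same set `X` of `12`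
elements serves for all `A`. -/
theorem result (G : Type*) [Group G] [DecidableEq G] (htf : ∀ g : G, g ≠ 1 → ¬ IsOfFinOrder g)
    (φ : P →* G) (hφ : ∃ p, φ p ≠ 1) :
    Function.Injective φ ∧
    ∃ S : Finset G, (1 : G) ∈ S ∧ ∃ X : Finset G, X.card = 12 ∧
      ∀ A : Finset G, A.card = 11 →
        ((X * S).card : ℤ) - (X.card : ℤ) < ((A * S).card : ℤ) - (A.card : ℤ) := by
  classical
  have hinj := injective_of_nontrivial htf φ hφ
  refine ⟨hinj, SG φ, ?_, X.image φ, ?_, fun A hA => ?_⟩
  · exact Finset.mem_image.mpr ⟨1, one_mem_S, map_one φ⟩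
  · rw [Finset.card_image_of_injective _ hinj, card_X]
  · have h1 := overgroup hinj A hA
    rw [image_card hinj, Finset.card_image_of_injective _ hinj, card_X, hA]
    have h2 : ((X * Pool.Agent.Helper677.Ham.S).card : ℤ) ≤ ((A * SG φ).card : ℤ) := by
      exact_mod_cast h1
    omega

end Pool.Agent.Results.MP_587a88_co.EveryOvergroup
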